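import Mathlib
import Pool.Agent.Helper9.TF.Defs

/-!
# The critical point of a twist region
-/

namespace Pool.Agent.Helper9.TF

open Complex Finset
open Pool.Agent.Helper9.TB

/-- a bound for `S` from its Lipschitz property -/
lemma LipS.norm_add_le {c : ℂ} {ρ d ε : ℝ} {S : ℂ → ℂ} (h : LipS c ρ d ε S) {y z : ℂ}
    (hy : y ∈ Metric.ball c ρ) (hz : z ∈ Metric.ball c ρ) (hd : 0 ≤ d) :
    ‖S y - S z‖ ≤ (2 * Real.pi * d + ε) * ‖y - z‖ := by
  have h1 := h y hy z hz
  have e : S y - S z = (S y - S z + 2 * Real.pi * d * (y - z)) - 2 * Real.pi * d * (y - z) := by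
    ring
  have h2 : ‖(2 : ℂ) * Real.pi * d * (y - z)‖ = 2 * Real.pi * d * ‖y - z‖ := by
    rw [norm_mul, norm_mul, norm_mul, Complex.norm_real, Complex.norm_real, Real.norm_eq_abs,
      Real.norm_eq_abs, abs_of_pos Real.pi_pos, abs_of_nonneg hd, Complex.norm_ofNat]
  rw [e]
  refine (norm_sub_le _ _).trans ?_
  rw [h2]
  linarith

/-- the critical point (contraction), in terms of the slope `S` only -/
theorem crit_exists {ρ : ℝ} (hρ : 0 < ρ) : ∃ R : ℕ, ∀ a : ℕ, R ≤ a → ∀ d : ℝ, 0 ≤ d → d ≤ 2 →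
    ∀ S : ℂ → ℂ, S 0 = 0 → LipS 0 ρ d 1 S →
    ∃ y : ℂ, ‖y - 1 / a‖ ≤ 3 / a ^ 2 ∧ 2 * Real.pi * I * a * y - 2 * Real.pi * I + S y = 0 := by
  obtain ⟨R0, hR0⟩ := exists_nat_gt (4 / ρ)
  refine ⟨max R0 100, ?_⟩
  intro a ha d hd0 hd2 S hS0 hS
  have ha1 : R0 ≤ a := (le_max_left _ _).trans ha
  have ha2 : 100 ≤ a := (le_max_right _ _).trans ha
  have haR : (100 : ℝ) ≤ a := by exact_mod_cast ha2
  have haρ : 4 / ρ < a := hR0.trans_le (by exact_mod_cast ha1)
  have ha0 : (0 : ℝ) < a := by linarith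
  have hac : (a : ℂ) ≠ 0 := by exact_mod_cast ha0.ne'
  have h4 : 4 / (a : ℝ) < ρ := by
    rw [div_lt_iff₀ ha0]
    rw [div_lt_iff₀ hρ] at haρ
    linarith
  have hpi := Real.pi_pos
  have hpi3 := Real.pi_gt_three
  have hpi4 := Real.pi_lt_d2
  -- the ball
  set s : Set ℂ := Metric.closedBall (1 / (a : ℂ)) (3 / (a : ℝ) ^ 2) with hs
  have hnorm : ∀ z ∈ s, ‖z‖ ≤ 1 / a + 3 / (a : ℝ) ^ 2 := by
    intro z hz
    rw [hs, Metric.mem_closedBall, dist_eq_norm] at hz
    have e : z = 1 / (a : ℂ) + (z - 1 / a) := by ring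
    rw [e]
    refine (norm_add_le _ _).trans ?_
    have : ‖(1 : ℂ) / a‖ = 1 / a := by rw [norm_div, norm_one, Complex.norm_natCast]
    rw [this]
    linarith
  have hsmall : 1 / a + 3 / (a : ℝ) ^ 2 < 4 / a := by
    have : 3 / (a : ℝ) ^ 2 < 3 / a := by
      apply div_lt_div_of_pos_left (by norm_num) ha0
      nlinarith
    have e : 4 / (a : ℝ) = 1 / a + 3 / a := by ring
    rw [e]; linarith
  have hball : ∀ z ∈ s, z ∈ Metric.ball (0 : ℂ) ρ := by
    intro z hz
    rw [Metric.mem_ball, dist_zero_right]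
    exact (hnorm z hz).trans_lt (hsmall.trans h4)
  have h0ball : (0 : ℂ) ∈ Metric.ball (0 : ℂ) ρ := Metric.mem_ball_self hρ
  set Φ : ℂ → ℂ := fun z => 1 / (a : ℂ) - S z / (2 * Real.pi * I * a) with hΦ
  have hden : ‖(2 : ℂ) * Real.pi * I * a‖ = 2 * Real.pi * a := by
    rw [norm_mul, norm_mul, norm_mul, Complex.norm_real, Complex.norm_natCast, Complex.norm_I,
      Real.norm_eq_abs, abs_of_pos hpi, Complex.norm_ofNat]
    ring
  have hmaps : Set.MapsTo Φ s s := by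
    intro z hz
    rw [hs, Metric.mem_closedBall, dist_eq_norm]
    have e : Φ z - 1 / (a : ℂ) = -(S z / (2 * Real.pi * I * a)) := by rw [hΦ]; ring
    rw [e, norm_neg, norm_div, hden]
    have h1 := hS.norm_add_le (hball z hz) h0ball hd0
    rw [hS0, sub_zero, sub_zero] at h1
    have h2 := hnorm z hz
    have h3 : (2 * Real.pi * d + 1) ≤ 2 * Real.pi * (5 / 2) := by nlinarith
    rw [div_le_iff₀ (by positivity)]
    have h5 : 3 / (a : ℝ) ^ 2 ≤ (3 / 100) / a := by
      rw [div_le_div_iff₀ (by positivity) ha0]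
      nlinarith
    calc ‖S z‖ ≤ (2 * Real.pi * d + 1) * ‖z‖ := h1
      _ ≤ (2 * Real.pi * (5 / 2)) * (1 / a + 3 / (a : ℝ) ^ 2) := by gcongr
      _ ≤ (2 * Real.pi * (5 / 2)) * (1 / a + (3 / 100) / a) := by
          apply mul_le_mul_of_nonneg_left _ (by positivity)
          linarith
      _ = (2 * Real.pi) * (5 / 2 * (103 / 100)) / a := by ring
      _ ≤ (2 * Real.pi) * 3 / a := by gcongr; norm_num
      _ = 3 / (a : ℝ) ^ 2 * (2 * Real.pi * a) := by field_simp
  have hK : (1 / 2 : NNReal) < 1 := by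
    rw [← NNReal.coe_lt_coe]; push_cast; norm_num
  have hcontr : ContractingWith (1 / 2 : NNReal) (hmaps.restrict Φ s s) := by
    refine ⟨hK, ?_⟩
    apply LipschitzWith.of_dist_le_mul
    rintro ⟨y, hy⟩ ⟨z, hz⟩
    rw [Subtype.dist_eq, Subtype.dist_eq]
    simp only [Set.MapsTo.val_restrict_apply]
    have hhalf : ((1 / 2 : NNReal) : ℝ) = 1 / 2 := by push_cast; ring
    rw [hhalf]
    rw [dist_eq_norm, dist_eq_norm]
    have e : Φ y - Φ z = -((S y - S z) / (2 * Real.pi * I * a)) := by rw [hΦ]; ring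
    rw [e, norm_neg, norm_div, hden, div_le_iff₀ (by positivity)]
    have h1 := hS.norm_add_le (hball y hy) (hball z hz) hd0
    calc ‖S y - S z‖ ≤ (2 * Real.pi * d + 1) * ‖y - z‖ := h1
      _ ≤ (1 / 2 * (2 * Real.pi * a)) * ‖y - z‖ := by
          gcongr
          nlinarith
      _ = _ := by ring
  obtain ⟨y, hy, hfix, -, -⟩ := ContractingWith.exists_fixedPoint' (x := 1 / (a : ℂ))
    (Metric.isClosed_closedBall.isComplete) hmaps hcontr
    (Metric.mem_closedBall_self (by positivity)) (edist_ne_top _ _)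
  refine ⟨y, ?_, ?_⟩
  · rw [hs, Metric.mem_closedBall, dist_eq_norm] at hy
    exact hy
  · have h1 : 1 / (a : ℂ) - S y / (2 * Real.pi * I * a) = y := hfix
    have h2 : (2 : ℂ) * Real.pi * I * a ≠ 0 := by
      rw [← norm_ne_zero_iff, hden]; positivity
    have h3 : (2 : ℂ) * Real.pi * I * a * (1 / (a : ℂ) - S y / (2 * Real.pi * I * a)) =
        2 * Real.pi * I * a * y := by rw [h1]
    have h4 : (2 : ℂ) * Real.pi * I * a * (1 / (a : ℂ) - S y / (2 * Real.pi * I * a)) =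
        2 * Real.pi * I - S y := by
      have hI : (2 : ℂ) * Real.pi * I ≠ 0 := fun h => h2 (by rw [h, zero_mul])
      field_simp
    rw [← h3, h4]
    ring

end Pool.Agent.Helper9.TF
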