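import Mathlib

/-!
# A simple uniform Laplace estimate and Taylor estimates
-/

namespace Pool.Agent.Helper9.TF

open MeasureTheory Set

lemma gauss_le {b : ℝ} (hb : 0 < b) {a c : ℝ} (hac : a ≤ c) :
    ∫ t in a..c, Real.exp (-b * t ^ 2) ≤ √(Real.pi / b) := by
  rw [intervalIntegral.integral_of_le hac, ← integral_gaussian b]
  exact setIntegral_le_integral (integrable_exp_neg_mul_sq hb)
    (Filter.Eventually.of_forall fun t => (Real.exp_pos _).le)

lemma gauss_tail {b σ c : ℝ} (hb : 0 < b) (hσ : 0 < σ) (h : σ ≤ c) :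
    ∫ t in Ioi c, Real.exp (-b * t ^ 2) ≤ 1 / (b * σ) := by
  have hbs : 0 < b * σ := by positivity
  have h1 := integral_exp_mul_Ioi (a := -(b * σ)) (by linarith) c
  have h2 : IntegrableOn (fun t : ℝ => Real.exp (-(b * σ) * t)) (Ioi c) :=
    integrableOn_exp_mul_Ioi (by linarith) c
  calc ∫ t in Ioi c, Real.exp (-b * t ^ 2) ≤ ∫ t in Ioi c, Real.exp (-(b * σ) * t) := by
        apply setIntegral_mono_on (integrable_exp_neg_mul_sq hb).integrableOn h2
          measurableSet_Ioi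
        intro t ht
        apply Real.exp_le_exp.mpr
        have ht' : c < t := ht
        have : σ * t ≤ t ^ 2 := by nlinarith
        nlinarith
    _ = Real.exp (-(b * σ) * c) / (b * σ) := by rw [h1]; ring
    _ ≤ 1 / (b * σ) := by
        gcongr
        rw [Real.exp_le_one_iff]
        nlinarith [mul_pos hbs (hσ.trans_le h)]

lemma gauss_ge {b σ a c : ℝ} (hb : 0 < b) (hσ : 0 < σ) (h1 : a ≤ -σ) (h2 : σ ≤ c) :
    √(Real.pi / b) - 2 / (b * σ) ≤ ∫ t in a..c, Real.exp (-b * t ^ 2) := by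
  have hi := integrable_exp_neg_mul_sq hb
  have e1 := intervalIntegral.integral_Iic_add_Ioi (b := a) hi.integrableOn hi.integrableOn
  have e2 := intervalIntegral.integral_interval_add_Ioi (a := a) (b := c)
    (f := fun t : ℝ => Real.exp (-b * t ^ 2)) hi.integrableOn hi.integrableOn
  have e3 : ∫ t in Iic a, Real.exp (-b * t ^ 2) = ∫ t in Ioi (-a), Real.exp (-b * t ^ 2) := by
    rw [← integral_comp_neg_Iic]
    simp
  have t1 := gauss_tail hb hσ h2
  have t2 := gauss_tail hb hσ (show σ ≤ -a by linarith)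
  rw [integral_gaussian b] at e1
  have e4 : 2 / (b * σ) = 1 / (b * σ) + 1 / (b * σ) := by ring
  rw [e4]
  linarith

/-- hypotheses on the exponent -/
structure TL (b τ₁ τ₂ : ℝ) (Q : ℝ → ℂ) : Prop where
  hb : 0 < b
  h1 : 0 ≤ τ₁
  h2 : 0 ≤ τ₂
  hQc : ContinuousOn Q (Icc (-τ₁) τ₂)
  hQ : ∀ t ∈ Icc (-τ₁) τ₂, ‖Q t + ((b * t ^ 2 : ℝ) : ℂ)‖ ≤ b * t ^ 2 / 4

lemma TL.norm_le {b τ₁ τ₂ : ℝ} {Q : ℝ → ℂ} (h : TL b τ₁ τ₂ Q) {t : ℝ} (ht : t ∈ Icc (-τ₁) τ₂) :
    ‖Complex.exp (Q t)‖ ≤ Real.exp (-(3 * b / 4) * t ^ 2) := by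
  rw [Complex.norm_exp]
  apply Real.exp_le_exp.mpr
  have h1 := h.hQ t ht
  have h2 := (Complex.abs_re_le_norm (Q t + ((b * t ^ 2 : ℝ) : ℂ))).trans h1
  rw [Complex.add_re, Complex.ofReal_re] at h2
  have h3 := (abs_le.mp h2).2
  linarith

lemma TL.re_ge {b τ₁ τ₂ : ℝ} {Q : ℝ → ℂ} (h : TL b τ₁ τ₂ Q) {t : ℝ} (ht : t ∈ Icc (-τ₁) τ₂) :
    2 * Real.exp (-b * t ^ 2) - Real.exp (-(3 * b / 4) * t ^ 2) ≤ (Complex.exp (Q t)).re := by
  have h1 := h.hQ t ht
  set w := Q t + ((b * t ^ 2 : ℝ) : ℂ) with hw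
  have e1 : Q t = ((-b * t ^ 2 : ℝ) : ℂ) + w := by rw [hw]; push_cast; ring
  rw [e1, Complex.exp_add, ← Complex.ofReal_exp, Complex.re_ofReal_mul]
  have h2 : 2 - Real.exp (b * t ^ 2 / 4) ≤ (Complex.exp w).re := by
    have h3 : ‖Complex.exp w - 1‖ ≤ Real.exp ‖w‖ - 1 := by
      simpa using Complex.norm_exp_sub_sum_le_exp_norm_sub_sum w 1
    have h4 := (Complex.abs_re_le_norm (Complex.exp w - 1)).trans h3
    rw [Complex.sub_re, Complex.one_re] at h4
    have h5 := (abs_le.mp h4).1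
    have h6 : Real.exp ‖w‖ ≤ Real.exp (b * t ^ 2 / 4) := Real.exp_le_exp.mpr h1
    linarith
  calc 2 * Real.exp (-b * t ^ 2) - Real.exp (-(3 * b / 4) * t ^ 2)
      = Real.exp (-b * t ^ 2) * (2 - Real.exp (b * t ^ 2 / 4)) := by
        rw [mul_sub, ← Real.exp_add]
        ring_nf
    _ ≤ _ := by gcongr

lemma TL.intervalIntegrable {b τ₁ τ₂ : ℝ} {Q : ℝ → ℂ} (h : TL b τ₁ τ₂ Q) {g : ℝ → ℂ}
    (hg : ContinuousOn g (Icc (-τ₁) τ₂)) :
    IntervalIntegrable (fun t => Complex.exp (Q t) * g t) volume (-τ₁) τ₂ := by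
  apply ContinuousOn.intervalIntegrable
  rw [uIcc_of_le (by linarith [h.h1, h.h2])]
  exact (Complex.continuous_exp.comp_continuousOn h.hQc).mul hg

theorem TL.lower {b σ τ₁ τ₂ : ℝ} {Q : ℝ → ℂ} (h : TL b τ₁ τ₂ Q) (hσ : 0 < σ) (h1 : σ ≤ τ₁)
    (h2 : σ ≤ τ₂) :
    4 / 5 * √(Real.pi / b) - 4 / (b * σ) ≤ ‖∫ t in (-τ₁)..τ₂, Complex.exp (Q t)‖ := by
  have hb := h.hb
  have hle : -τ₁ ≤ τ₂ := by linarith
  have hi : IntervalIntegrable (fun t => Complex.exp (Q t)) volume (-τ₁) τ₂ := by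
    simpa using h.intervalIntegrable (g := fun _ => 1) continuousOn_const
  have e1 : (∫ t in (-τ₁)..τ₂, Complex.exp (Q t)).re =
      ∫ t in (-τ₁)..τ₂, (Complex.exp (Q t)).re := by
    have := (Complex.reCLM.intervalIntegral_comp_comm hi)
    simpa using this.symm
  have h3 : ∫ t in (-τ₁)..τ₂, (2 * Real.exp (-b * t ^ 2) - Real.exp (-(3 * b / 4) * t ^ 2)) ≤
      ∫ t in (-τ₁)..τ₂, (Complex.exp (Q t)).re := by
    apply intervalIntegral.integral_mono_on hle
    · apply Continuous.intervalIntegrable; fun_prop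
    · exact ⟨hi.1.re, hi.2.re⟩
    · intro t ht; exact h.re_ge ht
  have i1 : IntervalIntegrable (fun t : ℝ => 2 * Real.exp (-b * t ^ 2)) volume (-τ₁) τ₂ := by
    apply Continuous.intervalIntegrable; fun_prop
  have i2 : IntervalIntegrable (fun t : ℝ => Real.exp (-(3 * b / 4) * t ^ 2)) volume (-τ₁) τ₂ := by
    apply Continuous.intervalIntegrable; fun_prop
  rw [intervalIntegral.integral_sub i1 i2, intervalIntegral.integral_const_mul] at h3
  have g1 := gauss_ge hb hσ (show -τ₁ ≤ -σ by linarith) h2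
  have g2 := gauss_le (b := 3 * b / 4) (by linarith) hle
  have g3 : √(Real.pi / (3 * b / 4)) ≤ 6 / 5 * √(Real.pi / b) := by
    rw [show Real.pi / (3 * b / 4) = (4 / 3) * (Real.pi / b) by field_simp]
    rw [Real.sqrt_mul (by norm_num)]
    gcongr
    rw [Real.sqrt_le_left (by norm_num)]
    norm_num
  have h4 : (∫ t in (-τ₁)..τ₂, Complex.exp (Q t)).re ≤ ‖∫ t in (-τ₁)..τ₂, Complex.exp (Q t)‖ :=
    Complex.re_le_norm _
  rw [e1] at h4
  have e4 : 4 / (b * σ) = 2 * (2 / (b * σ)) := by ring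
  rw [e4]
  linarith

theorem TL.const {b τ₁ τ₂ : ℝ} {Q : ℝ → ℂ} (h : TL b τ₁ τ₂ Q) {g : ℝ → ℂ} {K : ℝ}
    (hg : ∀ t ∈ Icc (-τ₁) τ₂, ‖g t‖ ≤ K) :
    ‖∫ t in (-τ₁)..τ₂, Complex.exp (Q t) * g t‖ ≤ 3 * K / √b := by
  have hb := h.hb
  have hle : -τ₁ ≤ τ₂ := by linarith [h.h1, h.h2]
  have hK : 0 ≤ K := (norm_nonneg _).trans (hg 0 ⟨by linarith [h.h1], h.h2⟩)
  have h1 : ‖∫ t in (-τ₁)..τ₂, Complex.exp (Q t) * g t‖ ≤
      ∫ t in (-τ₁)..τ₂, K * Real.exp (-(3 * b / 4) * t ^ 2) := by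
    apply intervalIntegral.norm_integral_le_of_norm_le hle
    · refine Filter.Eventually.of_forall fun t ht => ?_
      have ht' : t ∈ Icc (-τ₁) τ₂ := ⟨ht.1.le, ht.2⟩
      rw [norm_mul, mul_comm]
      exact mul_le_mul (hg t ht') (h.norm_le ht') (norm_nonneg _) hK
    · apply Continuous.intervalIntegrable; fun_prop
  rw [intervalIntegral.integral_const_mul] at h1
  have g2 := gauss_le (b := 3 * b / 4) (by linarith) hle
  have g3 : √(Real.pi / (3 * b / 4)) ≤ 3 / √b := by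
    rw [show Real.pi / (3 * b / 4) = (4 * Real.pi / 3) / b by field_simp, Real.sqrt_div' _ hb.le]
    gcongr
    rw [Real.sqrt_le_left (by norm_num)]
    have := Real.pi_lt_d2
    nlinarith
  calc _ ≤ K * ∫ t in (-τ₁)..τ₂, Real.exp (-(3 * b / 4) * t ^ 2) := h1
    _ ≤ K * (3 / √b) := by gcongr; exact g2.trans g3
    _ = _ := by ring

theorem TL.lin {b τ₁ τ₂ : ℝ} {Q : ℝ → ℂ} (h : TL b τ₁ τ₂ Q) {g : ℝ → ℂ} {K : ℝ} (hK : 0 ≤ K)
    (hg : ∀ t ∈ Icc (-τ₁) τ₂, ‖g t‖ ≤ K * |t|) :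
    ‖∫ t in (-τ₁)..τ₂, Complex.exp (Q t) * g t‖ ≤ 4 * K / b := by
  have hb := h.hb
  have hle : -τ₁ ≤ τ₂ := by linarith [h.h1, h.h2]
  have hsb : 0 < √b := Real.sqrt_pos.mpr hb
  have h1 : ‖∫ t in (-τ₁)..τ₂, Complex.exp (Q t) * g t‖ ≤
      ∫ t in (-τ₁)..τ₂, K / √b * Real.exp (-(b / 2) * t ^ 2) := by
    apply intervalIntegral.norm_integral_le_of_norm_le hle
    · refine Filter.Eventually.of_forall fun t ht => ?_
      have ht' : t ∈ Icc (-τ₁) τ₂ := ⟨ht.1.le, ht.2⟩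
      rw [norm_mul, mul_comm]
      have a1 : ‖g t‖ * ‖Complex.exp (Q t)‖ ≤ K * |t| * Real.exp (-(3 * b / 4) * t ^ 2) :=
        mul_le_mul (hg t ht') (h.norm_le ht') (norm_nonneg _) (by positivity)
      refine a1.trans ?_
      -- x exp(-x²/4) ≤ 1 with x = √b |t|
      have a2 : √b * |t| ≤ Real.exp (b / 4 * t ^ 2) := by
        have a3 : (√b * |t|) ^ 2 = b * t ^ 2 := by
          rw [mul_pow, Real.sq_sqrt hb.le, sq_abs]
        have a4 := Real.add_one_le_exp (b / 4 * t ^ 2)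
        nlinarith [sq_nonneg (√b * |t| - 2)]
      have a5 : Real.exp (-(3 * b / 4) * t ^ 2) =
          Real.exp (-(b / 2) * t ^ 2) / Real.exp (b / 4 * t ^ 2) := by
        rw [← Real.exp_sub]; congr 1; ring
      have hE := Real.exp_pos (b / 4 * t ^ 2)
      have a6 : |t| / Real.exp (b / 4 * t ^ 2) ≤ 1 / √b := by
        rw [div_le_div_iff₀ hE hsb, one_mul, mul_comm]
        exact a2
      rw [a5]
      calc K * |t| * (Real.exp (-(b / 2) * t ^ 2) / Real.exp (b / 4 * t ^ 2))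
          = (K * Real.exp (-(b / 2) * t ^ 2)) * (|t| / Real.exp (b / 4 * t ^ 2)) := by ring
        _ ≤ (K * Real.exp (-(b / 2) * t ^ 2)) * (1 / √b) := by gcongr
        _ = _ := by ring
    · apply Continuous.intervalIntegrable; fun_prop
  rw [intervalIntegral.integral_const_mul] at h1
  have g2 := gauss_le (b := b / 2) (by linarith) hle
  have g3 : √(Real.pi / (b / 2)) ≤ 4 / √b := by
    rw [show Real.pi / (b / 2) = (2 * Real.pi) / b by field_simp, Real.sqrt_div' _ hb.le]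
    gcongr
    rw [Real.sqrt_le_left (by norm_num)]
    have := Real.pi_lt_d2
    nlinarith
  calc _ ≤ K / √b * ∫ t in (-τ₁)..τ₂, Real.exp (-(b / 2) * t ^ 2) := h1
    _ ≤ K / √b * (4 / √b) := by gcongr; exact g2.trans g3
    _ = 4 * K / (√b * √b) := by ring
    _ = 4 * K / b := by rw [Real.mul_self_sqrt hb.le]

/-- second order Taylor estimate at a critical point -/
theorem taylor_crit {c : ℂ} {r : ℝ} {T : ℂ → ℂ} (hT : DifferentiableOn ℂ T (Metric.ball c r))
    {q : ℂ} (hq : ∀ u ∈ Metric.ball c r, ∀ v ∈ Metric.ball c r,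
      ‖deriv T u - deriv T v - q * (u - v)‖ ≤ ‖u - v‖)
    {t : ℂ} (ht : t ∈ Metric.ball c r) (hc : deriv T t = 0) {w : ℂ} (hw : w ∈ Metric.ball c r) :
    ‖T w - T t - q * (w - t) ^ 2 / 2‖ ≤ ‖w - t‖ ^ 2 := by
  set s : Set ℂ := Metric.ball c r ∩ Metric.closedBall t ‖w - t‖ with hs
  have hconv : Convex ℝ s := (convex_ball c r).inter (convex_closedBall t _)
  have hts : t ∈ s := ⟨ht, by simp⟩
  have hws : w ∈ s := ⟨hw, by simp [dist_eq_norm]⟩
  have hd : ∀ x ∈ s, HasDerivWithinAt (fun z => T z - q * (z - t) ^ 2 / 2)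
      (deriv T x - q * (x - t)) s x := by
    intro x hx
    have h1 : HasDerivAt T (deriv T x) x :=
      (hT.differentiableAt (Metric.isOpen_ball.mem_nhds hx.1)).hasDerivAt
    have h2 : HasDerivAt (fun z => q * (z - t) ^ 2 / 2) (q * (x - t)) x := by
      have h3 := ((((hasDerivAt_id x).sub_const t).pow 2).const_mul q).div_const 2
      refine h3.congr_deriv ?_
      simp only [id]
      push_cast
      ring
    exact (h1.sub h2).hasDerivWithinAt
  have hb : ∀ x ∈ s, ‖deriv T x - q * (x - t)‖ ≤ ‖w - t‖ := by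
    intro x hx
    have h1 := hq x hx.1 t ht
    rw [hc, sub_zero] at h1
    refine h1.trans ?_
    have := hx.2
    rwa [Metric.mem_closedBall, dist_eq_norm] at this
  have h := hconv.norm_image_sub_le_of_norm_hasDerivWithin_le hd hb hts hws
  simp only [sub_self] at h
  have e : T w - q * (w - t) ^ 2 / 2 - (T t - q * 0 ^ 2 / 2) =
      T w - T t - q * (w - t) ^ 2 / 2 := by ring
  rw [e] at h
  exact h.trans_eq (sq _).symm

/-- a bounded holomorphic function is Lipschitz inside -/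
theorem lip_of_bdd {c : ℂ} {r K : ℝ} {B : ℂ → ℂ} (hB : DifferentiableOn ℂ B (Metric.ball c r))
    (hK : ∀ z ∈ Metric.ball c r, ‖B z‖ ≤ K) {t : ℂ} (ht : ‖t - c‖ < r / 2) {w : ℂ}
    (hw : w ∈ Metric.ball c r) : ‖B w - B t‖ ≤ 8 * K / r * ‖w - t‖ := by
  have hr : 0 < r := by
    have := norm_nonneg (t - c)
    linarith
  have htb : t ∈ Metric.ball c r := by
    rw [Metric.mem_ball, dist_eq_norm]; linarith
  have hK0 : 0 ≤ K := (norm_nonneg _).trans (hK t htb)
  by_cases hlt : ‖w - t‖ < r / 2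
  · have hsub : Metric.ball t (r / 2) ⊆ Metric.ball c r := by
      intro z hz
      rw [Metric.mem_ball, dist_eq_norm] at hz ⊢
      calc ‖z - c‖ = ‖(z - t) + (t - c)‖ := by congr 1; ring
        _ ≤ ‖z - t‖ + ‖t - c‖ := norm_add_le _ _
        _ < r := by linarith
    rcases hK0.eq_or_lt with hK00 | hK00
    · have h1 := hK w hw
      have h2 := hK t htb
      rw [← hK00] at h1 h2 ⊢
      have h3 := norm_sub_le (B w) (B t)
      have : 8 * (0 : ℝ) / r * ‖w - t‖ = 0 := by ring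
      rw [this]
      linarith
    · have hmaps : Set.MapsTo B (Metric.ball t (r / 2)) (Metric.ball (B t) (4 * K)) := by
        intro z hz
        rw [Metric.mem_ball, dist_eq_norm]
        have := norm_sub_le (B z) (B t)
        have := hK z (hsub hz)
        have := hK t htb
        linarith
      have h1 := Complex.dist_le_div_mul_dist_of_mapsTo_ball (hB.mono hsub)
        (hmaps.mono_right Metric.ball_subset_closedBall)
        (z := w) (by rw [Metric.mem_ball, dist_eq_norm]; exact hlt)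
      rw [dist_eq_norm, dist_eq_norm] at h1
      calc ‖B w - B t‖ ≤ 4 * K / (r / 2) * ‖w - t‖ := h1
        _ = 8 * K / r * ‖w - t‖ := by field_simp; ring
  · push Not at hlt
    have h1 := norm_sub_le (B w) (B t)
    have h2 := hK w hw
    have h3 := hK t htb
    calc ‖B w - B t‖ ≤ 2 * K := by linarith
      _ = 4 * K / r * (r / 2) := by field_simp; ring
      _ ≤ 8 * K / r * ‖w - t‖ := by
          gcongr
          norm_num

end Pool.Agent.Helper9.TF
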