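import Pool.Agent.Helper85.TF.Crit
import Pool.Agent.Helper85.TF.TLap

/-!
# The geometry of the exponent of a twist region near the critical point
-/

namespace Pool.Agent.Helper9.TF

open Complex Finset
open Pool.Agent.Helper9.TB

/-- the data of a twist region -/
structure SCtx (ρ d : ℝ) (a : ℕ) (X : ℂ → ℂ) (y : ℂ) : Prop where
  hρ : 0 < ρ
  hρ1 : ρ ≤ 1 / 10
  ha : (200 : ℝ) ≤ a
  haρ : 100 / ρ ≤ a
  hd1 : 1 ≤ d
  hd2 : d ≤ 2
  hX : DifferentiableOn ℂ X (Metric.ball 0 ρ)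
  hL : LipS 0 ρ d 1 (deriv X)
  hX0 : deriv X 0 = 0
  hy : ‖y - 1 / a‖ ≤ 3 / a ^ 2
  hc : 2 * Real.pi * I * a * y - 2 * Real.pi * I + deriv X y = 0

variable {ρ d : ℝ} {a : ℕ} {X : ℂ → ℂ} {y : ℂ}

lemma SCtx.a_pos (h : SCtx ρ d a X y) : (0 : ℝ) < a := by linarith [h.ha]

lemma SCtx.inv_a (h : SCtx ρ d a X y) : 1 / (a : ℝ) ≤ ρ / 100 := by
  have h1 := h.haρ
  have h2 := h.a_pos
  have h3 := h.hρ
  rw [div_le_iff₀ h3] at h1
  rw [div_le_div_iff₀ h2 (by norm_num)]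
  linarith

lemma SCtx.three (h : SCtx ρ d a X y) : 3 / (a : ℝ) ^ 2 ≤ (3 / 200) * (1 / a) := by
  have h1 := h.ha
  have h2 := h.a_pos
  rw [mul_one_div, div_le_div_iff₀ (by positivity) h2]
  nlinarith

lemma SCtx.re_bounds (h : SCtx ρ d a X y) : 0 < y.re ∧ y.re ≤ 2 * (1 / a) ∧ |y.im| ≤ 1 / a := by
  have h1 := h.hy
  have h2 := h.three
  have h3 := h.a_pos
  have h4 := (Complex.abs_re_le_norm (y - 1 / a)).trans h1
  have h5 := (Complex.abs_im_le_norm (y - 1 / a)).trans h1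
  have e : ((1 : ℂ) / a) = ((1 / a : ℝ) : ℂ) := by push_cast; ring
  rw [e, Complex.sub_re, Complex.ofReal_re] at h4
  rw [e, Complex.sub_im, Complex.ofReal_im, sub_zero] at h5
  have h6 : 0 < 1 / (a : ℝ) := by positivity
  rw [abs_le] at h4
  refine ⟨by linarith [h4.1], by linarith [h4.2], by linarith⟩

lemma SCtx.norm_y (h : SCtx ρ d a X y) : ‖y‖ ≤ (203 / 200) * (1 / a) := by
  have h1 := h.hy
  have h2 := h.three
  have h3 := h.a_pos
  have e : y = 1 / (a : ℂ) + (y - 1 / a) := by ring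
  rw [e]
  refine (norm_add_le _ _).trans ?_
  have : ‖(1 : ℂ) / a‖ = 1 / a := by rw [norm_div, norm_one, Complex.norm_natCast]
  rw [this]
  linarith

lemma SCtx.y_mem (h : SCtx ρ d a X y) : y ∈ Metric.ball (0 : ℂ) ρ := by
  have h1 := h.norm_y
  have h2 := h.inv_a
  have h3 := h.hρ
  rw [Metric.mem_ball, dist_zero_right]
  linarith

/-- the location of the critical point -/
lemma SCtx.loc (h : SCtx ρ d a X y) : ‖y - (1 / a - I * (d * (1 / a) ^ 2))‖ ≤ 1 / 5 * (1 / (a : ℝ)) ^ 2 := by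
  have hc := h.hc
  have ha := h.a_pos
  have hac : (a : ℂ) ≠ 0 := by exact_mod_cast ha.ne'
  have hpi := Real.pi_pos
  have hpi3 := Real.pi_gt_d2
  have hpic : (Real.pi : ℂ) ≠ 0 := by exact_mod_cast hpi.ne'
  obtain ⟨L, hL, hLn⟩ : ∃ L : ℂ, deriv X y = L - 2 * Real.pi * d * y ∧ ‖L‖ ≤ ‖y‖ := by
    refine ⟨deriv X y + 2 * Real.pi * d * y, by ring, ?_⟩
    have := h.hL y h.y_mem 0 (Metric.mem_ball_self h.hρ)
    rw [h.hX0] at this
    simp only [sub_zero] at this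
    linarith
  have hLe : L = 2 * Real.pi * (-(I * a * y) + I + d * y) := by
    rw [hL] at hc
    linear_combination hc
  have e1 : I * L / (2 * Real.pi * a) = y - 1 / a + I * (d * y * (1 / a)) := by
    rw [hLe]
    field_simp
    linear_combination (-(a : ℂ) * y + 1) * Complex.I_sq
  have e : y - (1 / a - I * (d * (1 / a) ^ 2)) =
      -(I * (d * (1 / a))) * (y - 1 / a) + I * L / (2 * Real.pi * a) := by
    rw [e1]
    ring
  have hd2 := h.hd2
  have hd1 := h.hd1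
  have ha1 := h.ha
  have hk : 0 < 1 / (a : ℝ) := by positivity
  have hk2 : 1 / (a : ℝ) ≤ 1 / 200 := by
    apply one_div_le_one_div_of_le (by norm_num) ha1
  have n1 : ‖-(I * (d * (1 / a))) * (y - 1 / a)‖ ≤ 2 * (1 / a) * (3 / (a : ℝ) ^ 2) := by
    rw [norm_mul, norm_neg, norm_mul, norm_mul, Complex.norm_I, one_mul, Complex.norm_real,
      Real.norm_eq_abs, abs_of_pos (by linarith), norm_div, norm_one, Complex.norm_natCast]
    gcongr
    exact h.hy
  have n2 : ‖I * L / (2 * Real.pi * a)‖ ≤ (203 / 200) * (1 / a) / (2 * Real.pi * a) := by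
    rw [norm_div, norm_mul, Complex.norm_I, one_mul, norm_mul, norm_mul, Complex.norm_ofNat,
      Complex.norm_real, Complex.norm_natCast, Real.norm_eq_abs, abs_of_pos hpi]
    gcongr
    exact hLn.trans h.norm_y
  rw [e]
  refine (norm_add_le _ _).trans ?_
  have n3 : 2 * (1 / (a : ℝ)) * (3 / (a : ℝ) ^ 2) ≤ 3 / 100 * (1 / (a : ℝ)) ^ 2 := by
    calc 2 * (1 / (a : ℝ)) * (3 / (a : ℝ) ^ 2) = 6 * (1 / (a : ℝ)) * (1 / (a : ℝ)) ^ 2 := by ring
      _ ≤ 6 * (1 / 200) * (1 / (a : ℝ)) ^ 2 := by gcongr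
      _ = _ := by ring
  have n4 : (203 / 200) * (1 / a) / (2 * Real.pi * a) ≤ 17 / 100 * (1 / (a : ℝ)) ^ 2 := by
    rw [div_le_iff₀ (by positivity)]
    have : 17 / 100 * (1 / (a : ℝ)) ^ 2 * (2 * Real.pi * a) = (34 / 100 * Real.pi) * (1 / a) := by
      field_simp
      ring
    rw [this]
    gcongr
    linarith
  linarith

lemma SCtx.im_loc (h : SCtx ρ d a X y) :
    |y.im + d * (1 / (a : ℝ)) ^ 2| ≤ 1 / 5 * (1 / (a : ℝ)) ^ 2 := by
  have h1 := (Complex.abs_im_le_norm _).trans h.loc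
  have e : ((1 : ℂ) / a - I * (d * (1 / a) ^ 2)) =
      ((1 / a : ℝ) : ℂ) - I * ((d * (1 / a) ^ 2 : ℝ) : ℂ) := by push_cast; ring
  rw [e, Complex.sub_im, Complex.sub_im, Complex.ofReal_im, Complex.I_mul_im,
    Complex.ofReal_re] at h1
  rw [show y.im + d * (1 / (a : ℝ)) ^ 2 = y.im - (0 - d * (1 / a) ^ 2) by ring]
  exact h1

/-- Taylor estimate of the exponent -/
lemma SCtx.taylor (h : SCtx ρ d a X y) {z : ℂ} (hz : z ∈ Metric.ball (0 : ℂ) ρ) :
    ‖Psi a X z - Psi a X y - (Real.pi * I * a - Real.pi * d) * (z - y) ^ 2‖ ≤ ‖z - y‖ ^ 2 := by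
  have hder : ∀ u ∈ Metric.ball (0 : ℂ) ρ, HasDerivAt (Psi a X)
      (2 * Real.pi * I * a * u - 2 * Real.pi * I + deriv X u) u := by
    intro u hu
    have h1 : HasDerivAt X (deriv X u) u :=
      (h.hX.differentiableAt (Metric.isOpen_ball.mem_nhds hu)).hasDerivAt
    have h2 : HasDerivAt (fun y : ℂ => Real.pi * I * a * y ^ 2) (2 * Real.pi * I * a * u) u := by
      refine ((hasDerivAt_pow 2 u).const_mul (Real.pi * I * a : ℂ)).congr_deriv ?_
      push_cast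
      ring
    have h3 : HasDerivAt (fun y : ℂ => 2 * Real.pi * I * y) (2 * Real.pi * I) u := by
      simpa using (hasDerivAt_id u).const_mul (2 * Real.pi * I : ℂ)
    exact (h2.sub h3).add h1
  have hdiff : DifferentiableOn ℂ (Psi a X) (Metric.ball 0 ρ) := fun u hu =>
    (hder u hu).differentiableAt.differentiableWithinAt
  have hq : ∀ u ∈ Metric.ball (0 : ℂ) ρ, ∀ v ∈ Metric.ball (0 : ℂ) ρ,
      ‖deriv (Psi a X) u - deriv (Psi a X) v - (2 * Real.pi * I * a - 2 * Real.pi * d) * (u - v)‖ ≤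
        ‖u - v‖ := by
    intro u hu v hv
    rw [(hder u hu).deriv, (hder v hv).deriv]
    have h1 := h.hL u hu v hv
    rw [one_mul] at h1
    refine le_trans (le_of_eq ?_) h1
    congr 1
    ring
  have hc0 : deriv (Psi a X) y = 0 := by rw [(hder y h.y_mem).deriv]; exact h.hc
  have h1 := taylor_crit hdiff hq h.y_mem hc0 hz
  refine le_trans (le_of_eq ?_) h1
  congr 1
  ring

lemma SCtx.re_le (h : SCtx ρ d a X y) {z : ℂ} (hz : z ∈ Metric.ball (0 : ℂ) ρ) :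
    (Psi a X z).re ≤ (Psi a X y).re + (-(Real.pi * d) * ((z.re - y.re) ^ 2 - (z.im - y.im) ^ 2) -
      2 * Real.pi * a * (z.re - y.re) * (z.im - y.im) + ((z.re - y.re) ^ 2 + (z.im - y.im) ^ 2)) := by
  have h1 := (Complex.re_le_norm _).trans (h.taylor hz)
  have e1 : ‖z - y‖ ^ 2 = (z.re - y.re) ^ 2 + (z.im - y.im) ^ 2 := by
    rw [← Complex.normSq_eq_norm_sq, Complex.normSq_apply, Complex.sub_re, Complex.sub_im]
    ring
  have e2 : ((Real.pi * I * a - Real.pi * d) * (z - y) ^ 2 : ℂ).re =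
      -(Real.pi * d) * ((z.re - y.re) ^ 2 - (z.im - y.im) ^ 2) -
      2 * Real.pi * a * (z.re - y.re) * (z.im - y.im) := by
    have : (Real.pi * I * a - Real.pi * d : ℂ) =
        ((-(Real.pi * d) : ℝ) : ℂ) + ((Real.pi * a : ℝ) : ℂ) * I := by push_cast; ring
    rw [this, sq (z - y)]
    simp only [Complex.mul_re, Complex.add_re, Complex.ofReal_re, Complex.ofReal_im, Complex.I_re,
      Complex.I_im, Complex.add_im, Complex.mul_im, Complex.sub_re, Complex.sub_im]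
    ring
  rw [Complex.sub_re, Complex.sub_re, e1, e2] at h1
  linarith

/-- the key real inequality on the flat line -/
lemma flat_ineq {p a k x η d : ℝ} (hp1 : 3.14 < p) (hp2 : p < 3.15) (hk : 0 < k) (hk1 : k ≤ 1 / 200)
    (hak : a * k = 1) (hd1 : 1 ≤ d) (hd2 : d ≤ 2) (hη : |η| ≤ 1 / 5 * k ^ 2) :
    -(p * d) * (x ^ 2 - η ^ 2) - 2 * p * a * x * η + (x ^ 2 + η ^ 2) ≤ 3 / 10 * k ^ 2 := by
  have ha : 0 < a := by
    by_contra h
    push Not at h
    nlinarith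
  have h1 : -(2 * p * a * x * η) ≤ 63 / 50 * |x| * k := by
    have a1 : -(2 * p * a * x * η) ≤ |2 * p * a * x * η| := neg_le_abs _
    have a2 : |2 * p * a * x * η| = 2 * p * a * |x| * |η| := by
      rw [abs_mul, abs_mul, abs_mul, abs_mul, abs_of_pos (show (0 : ℝ) < 2 by norm_num),
        abs_of_pos (show 0 < p by linarith), abs_of_pos ha]
    have a3 : 2 * p * a * |x| * |η| ≤ 2 * p * a * |x| * (1 / 5 * k ^ 2) := by
      gcongr
    have a4 : 2 * p * a * |x| * (1 / 5 * k ^ 2) = (2 / 5 * p) * |x| * k * (a * k) := by ring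
    have a5 : (2 / 5 * p) * |x| * k ≤ 63 / 50 * |x| * k := by
      gcongr
      linarith
    rw [a4, hak, mul_one] at a3
    linarith
  have h2 : η ^ 2 ≤ 1 / 25 * k ^ 4 := by
    have := pow_le_pow_left₀ (abs_nonneg η) hη 2
    rw [sq_abs] at this
    nlinarith
  have h3 : k ^ 4 ≤ 1 / 40000 * k ^ 2 := by
    have : k ^ 2 ≤ 1 / 40000 := by nlinarith
    nlinarith [sq_nonneg k]
  have h4 : (p * d - 1) * x ^ 2 ≥ 2 * x ^ 2 := by
    have : 3 ≤ p * d := by nlinarith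
    nlinarith [sq_nonneg x]
  have h5 : (p * d + 1) * η ^ 2 ≤ 8 * η ^ 2 := by
    have : p * d ≤ 7 := by nlinarith
    nlinarith [sq_nonneg η]
  have h6 : -2 * x ^ 2 + 63 / 50 * |x| * k ≤ 1 / 5 * k ^ 2 := by
    have : |x| ^ 2 = x ^ 2 := sq_abs x
    nlinarith [sq_nonneg (|x| - 63 / 200 * k)]
  nlinarith

/-- the key real inequality on the connectors -/
lemma conn_ineq {p a k x η d ρ : ℝ} (hp1 : 3.14 < p) (hp2 : p < 3.15) (hk : 0 < k)
    (hk1 : k ≤ ρ / 100) (hρ1 : ρ ≤ 1 / 10)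
    (hak : a * k = 1) (hd1 : 1 ≤ d) (hd2 : d ≤ 2) (hx : 12 / 25 * ρ ≤ x)
    (hη : -(1 / 5 * k ^ 2) ≤ η) (hηx : η ≤ x) :
    -(p * d) * (x ^ 2 - η ^ 2) - 2 * p * a * x * η + (x ^ 2 + η ^ 2) ≤ -(ρ ^ 2 / 4) := by
  have ha : 1000 ≤ a := by
    by_contra h
    push Not at h
    nlinarith
  have hx0 : 0 < x := by nlinarith
  have h4 : (p * d - 1) * x ^ 2 ≥ 2 * x ^ 2 := by
    have : 3 ≤ p * d := by nlinarith
    nlinarith [sq_nonneg x]
  have hxx : ρ ^ 2 * (144 / 625) ≤ x ^ 2 := by nlinarith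
  have h5 : (p * d + 1) * η ^ 2 ≤ 8 * η ^ 2 := by
    have : p * d ≤ 7 := by nlinarith
    nlinarith [sq_nonneg η]
  rcases le_total 0 η with h0 | h0
  · have h6 : 8 * η ^ 2 ≤ 2 * p * a * x * η := by
      have : 8 * η ≤ 2 * p * a * x := by
        have : 8 * x ≤ 2 * p * a * x := by
          have : 8 ≤ 2 * p * a := by nlinarith
          nlinarith
        linarith
      nlinarith
    nlinarith
  · have h7 : η ^ 2 ≤ 1 / 25 * k ^ 4 := by
      have : -η ≤ 1 / 5 * k ^ 2 := by linarith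
      nlinarith [sq_nonneg k, mul_nonneg (neg_nonneg.mpr h0) (sq_nonneg k)]
    have h3 : k ^ 4 ≤ k ^ 2 * (1 / 1000000) := by
      have : k ≤ 1 / 1000 := by linarith
      have : k ^ 2 ≤ 1 / 1000000 := by nlinarith
      nlinarith [sq_nonneg k]
    have h8 : -(2 * p * a * x * η) ≤ 63 / 50 * x * k := by
      have a1 : -(2 * p * a * x * η) ≤ 2 * p * a * x * (1 / 5 * k ^ 2) := by
        have : 0 ≤ 2 * p * a * x := by positivity
        nlinarith
      have a4 : 2 * p * a * x * (1 / 5 * k ^ 2) = (2 / 5 * p) * x * k * (a * k) := by ring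
      have a5 : (2 / 5 * p) * x * k ≤ 63 / 50 * x * k := by
        gcongr
        linarith
      rw [a4, hak, mul_one] at a1
      linarith
    have h9 : k ≤ x / 48 := by linarith
    have h10 : 63 / 50 * x * k ≤ 63 / 50 * x * (x / 48) := by gcongr
    have h11 : k ^ 2 ≤ x ^ 2 / 2304 := by nlinarith
    nlinarith

end Pool.Agent.Helper9.TF
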