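import Mathlib
import Pool.Agent.Helper85.TF.SGeo
import Pool.Agent.Helper85.TB.LogDer

/-!
# The main part of the integral of a twist region
-/

namespace Pool.Agent.Helper9.TF

open Complex Finset MeasureTheory
open Pool.Agent.Helper9.TB

/-- the main part of the integrand -/
noncomputable def mainf (N a : ℕ) (X B : ℂ → ℂ) (z : ℂ) : ℂ :=
  dLy z * Complex.exp (N * Psi a X z) * B z

lemma om_main {N a : ℕ} {X B : ℂ → ℂ} {z : ℂ}
    (hDN : DN N z = 2 + (-1) ^ N * (2 * Complex.cos (2 * Real.pi * N * z)))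
    (hu : ‖Complex.exp (-(2 * Real.pi * I * N * z))‖ ≤ 1 / 2) :
    ‖om N a z * Complex.exp (N * X z) * B z - (-1) ^ N * mainf N a X B z‖ ≤
      10 * ‖Complex.exp (-(2 * Real.pi * I * N * z))‖ * ‖mainf N a X B z‖ := by
  set u := Complex.exp (-(2 * Real.pi * I * N * z)) with hudef
  set v := Complex.exp (2 * Real.pi * I * N * z) with hvdef
  set ε : ℂ := (-1) ^ N with hε
  have hε2 : ε * ε = 1 := by
    rw [hε, ← mul_pow]; norm_num
  have hεn : ‖ε‖ = 1 := by rw [hε, norm_pow, norm_neg, norm_one, one_pow]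
  have huv : u * v = 1 := by rw [hudef, hvdef, ← Complex.exp_add]; simp
  have hcos : 2 * Complex.cos (2 * Real.pi * N * z) = v + u := by
    rw [Complex.cos, hudef, hvdef]
    have e1 : 2 * Real.pi * N * z * I = 2 * Real.pi * I * N * z := by ring
    have e2 : -(2 * Real.pi * N * z) * I = -(2 * Real.pi * I * N * z) := by ring
    rw [e1, e2]
    ring
  rw [hcos] at hDN
  set w := ε * u with hw
  have hwn : ‖w‖ ≤ 1 / 2 := by rw [hw, norm_mul, hεn, one_mul]; exact hu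
  have hDu : DN N z * u = ε * (1 + w) ^ 2 := by
    rw [hDN, hw]
    linear_combination ε * huv - (2 * u + ε * u ^ 2) * hε2
  have h1w : (1 / 2 : ℝ) ≤ ‖1 + w‖ := by
    have := norm_sub_norm_le (1 : ℂ) (-w)
    rw [norm_neg, norm_one, sub_neg_eq_add] at this
    linarith
  have h1w0 : 1 + w ≠ 0 := by
    rw [← norm_pos_iff]; linarith
  have hε0 : ε ≠ 0 := by
    intro h; rw [h, mul_zero] at hε2; exact zero_ne_one hε2
  have hu0 : u ≠ 0 := Complex.exp_ne_zero _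
  have hDN0 : DN N z ≠ 0 := by
    intro h
    rw [h, zero_mul] at hDu
    exact mul_ne_zero hε0 (pow_ne_zero 2 h1w0) hDu.symm
  have hmain : mainf N a X B z =
      (om N a z * Complex.exp (N * X z) * B z) * (DN N z * u) := by
    unfold mainf om Psi
    have e1 : (N : ℂ) * (Real.pi * I * a * z ^ 2 - 2 * Real.pi * I * z + X z) =
        Real.pi * I * (a * N) * z ^ 2 + (-(2 * Real.pi * I * N * z)) + N * X z := by ring
    rw [e1, Complex.exp_add, Complex.exp_add, ← hudef]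
    field_simp
  set G := om N a z * Complex.exp (N * X z) * B z with hG
  rw [hDu] at hmain
  clear_value G w ε u v
  have h7 : (1 + w) ^ 2 * (1 / (1 + w) ^ 2 - 1) = 1 - (1 + w) ^ 2 := by
    field_simp
  have e2 : G - ε * mainf N a X B z = mainf N a X B z * (ε * (1 / (1 + w) ^ 2 - 1)) := by
    rw [hmain]
    linear_combination (-G) * hε2 - G * ε ^ 2 * h7
  rw [e2, norm_mul, norm_mul, hεn, one_mul, mul_comm]
  have e3 : 1 / (1 + w) ^ 2 - 1 = -(w * (2 + w)) / (1 + w) ^ 2 := by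
    field_simp
    ring
  have e4 : ‖1 / (1 + w) ^ 2 - 1‖ ≤ 10 * ‖u‖ := by
    rw [e3, norm_div, norm_neg, norm_mul, norm_pow]
    have h3 : ‖2 + w‖ ≤ 5 / 2 := by
      refine (norm_add_le _ _).trans ?_
      rw [Complex.norm_ofNat]
      linarith
    have h4 : (1 / 4 : ℝ) ≤ ‖1 + w‖ ^ 2 := by nlinarith
    have h5 : ‖w‖ = ‖u‖ := by rw [hw, norm_mul, hεn, one_mul]
    rw [h5, div_le_iff₀ (by linarith)]
    nlinarith [norm_nonneg u, norm_nonneg (2 + w)]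
  gcongr

/-- bounds for `dLy` -/
noncomputable def K0 : ℝ := 4 * Real.pi * Real.cosh (2 * Real.pi)
/-- bounds for `ddLy` -/
noncomputable def K1 : ℝ := 8 * Real.pi ^ 2 * Real.cosh (2 * Real.pi)

lemma K0_pos : 0 < K0 := by
  unfold K0
  have := Real.pi_pos
  have := Real.cosh_pos (2 * Real.pi)
  positivity

lemma K1_pos : 0 < K1 := by
  unfold K1
  have := Real.pi_pos
  have := Real.cosh_pos (2 * Real.pi)
  positivity

lemma eq_pt (z : ℂ) : z = pt z.re (-z.im) := by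
  unfold pt
  rw [neg_neg]
  exact (Complex.re_add_im z).symm

lemma pt_re (ξ h : ℝ) : (pt ξ h).re = ξ := by unfold pt; simp

lemma pt_im (ξ h : ℝ) : (pt ξ h).im = -h := by unfold pt; simp

lemma cosh_le_of_im {z : ℂ} (hz : |z.im| ≤ 1) :
    Real.cosh (2 * Real.pi * (-z.im)) ≤ Real.cosh (2 * Real.pi) := by
  have hpi := Real.pi_pos
  rw [Real.cosh_le_cosh, abs_mul, abs_neg, abs_of_pos (show 0 < 2 * Real.pi by positivity)]
  nlinarith

lemma dLy_le {z : ℂ} (hz : |z.im| ≤ 1) : ‖dLy z‖ ≤ K0 := by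
  rw [eq_pt z]
  refine (norm_dLy_le _ _).trans ?_
  unfold K0
  have := Real.pi_pos
  have := cosh_le_of_im hz
  gcongr

lemma ddLy_le {z : ℂ} (hz : |z.im| ≤ 1) : ‖ddLy z‖ ≤ K1 := by
  rw [eq_pt z]
  refine (norm_ddLy_le _ _).trans ?_
  unfold K1
  have := Real.pi_pos
  have := cosh_le_of_im hz
  gcongr

lemma im_le_of_ball {ρ : ℝ} (hρ1 : ρ ≤ 1 / 10) {z : ℂ} (hz : z ∈ Metric.ball (0 : ℂ) ρ) :
    |z.im| ≤ 1 := by
  rw [Metric.mem_ball, dist_zero_right] at hz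
  have := Complex.abs_im_le_norm z
  linarith

lemma dLy_lip {ρ : ℝ} (hρ1 : ρ ≤ 1 / 10) {z y : ℂ} (hz : z ∈ Metric.ball (0 : ℂ) ρ)
    (hy : y ∈ Metric.ball (0 : ℂ) ρ) : ‖dLy z - dLy y‖ ≤ K1 * ‖z - y‖ :=
  (convex_ball (0 : ℂ) ρ).norm_image_sub_le_of_norm_hasDerivWithin_le
    (fun x _ => (dLy_deriv x).hasDerivWithinAt)
    (fun _ hx => ddLy_le (im_le_of_ball hρ1 hx)) hy hz

variable {ρ d : ℝ} {a : ℕ} {X : ℂ → ℂ} {y : ℂ}

lemma SCtx.norm_y_half (h : SCtx ρ d a X y) : ‖y - 0‖ < ρ / 2 := by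
  have h1 := h.norm_y
  have h2 := h.inv_a
  have h3 := h.hρ
  rw [sub_zero]
  linarith

/-- the Lipschitz constant of the amplitude -/
noncomputable def KA (ρ : ℝ) : ℝ := K1 + 8 * K0 / ρ

lemma SCtx.amp (h : SCtx ρ d a X y) {B : ℂ → ℂ} (hB : DifferentiableOn ℂ B (Metric.ball 0 ρ))
    (hB1 : ∀ z ∈ Metric.ball (0 : ℂ) ρ, ‖B z‖ ≤ 1) {z : ℂ} (hz : z ∈ Metric.ball (0 : ℂ) ρ) :
    ‖dLy z * B z - dLy y * B y‖ ≤ KA ρ * ‖z - y‖ := by
  have h1 := lip_of_bdd hB hB1 h.norm_y_half hz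
  have h2 := dLy_lip h.hρ1 hz h.y_mem
  have h3 := dLy_le (im_le_of_ball h.hρ1 h.y_mem)
  have h4 := hB1 z hz
  have hρ := h.hρ
  have hK0 := K0_pos
  have hK1 := K1_pos
  have e : dLy z * B z - dLy y * B y = (dLy z - dLy y) * B z + dLy y * (B z - B y) := by ring
  rw [e]
  refine (norm_add_le _ _).trans ?_
  rw [norm_mul, norm_mul]
  calc ‖dLy z - dLy y‖ * ‖B z‖ + ‖dLy y‖ * ‖B z - B y‖
      ≤ (K1 * ‖z - y‖) * 1 + K0 * (8 * 1 / ρ * ‖z - y‖) := by gcongr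
    _ = _ := by unfold KA; ring

lemma mem_ball_of {ρ : ℝ} (hρ : 0 < ρ) {z : ℂ} (h1 : |z.re| ≤ ρ / 2) (h2 : |z.im| ≤ 11 / 20 * ρ) :
    z ∈ Metric.ball (0 : ℂ) ρ := by
  rw [Metric.mem_ball, dist_zero_right]
  apply lt_of_pow_lt_pow_left₀ 2 hρ.le
  rw [← Complex.normSq_eq_norm_sq, Complex.normSq_apply]
  have a1 := pow_le_pow_left₀ (abs_nonneg _) h1 2
  have a2 := pow_le_pow_left₀ (abs_nonneg _) h2 2
  rw [sq_abs] at a1 a2
  nlinarith

lemma SCtx.psi_diff (h : SCtx ρ d a X y) : DifferentiableOn ℂ (Psi a X) (Metric.ball 0 ρ) := by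
  have := h.hX
  unfold Psi
  fun_prop

lemma dLy_diff : Differentiable ℂ dLy := fun z => (dLy_deriv z).differentiableAt

lemma SCtx.main_diff (h : SCtx ρ d a X y) (N : ℕ) {B : ℂ → ℂ}
    (hB : DifferentiableOn ℂ B (Metric.ball 0 ρ)) :
    DifferentiableOn ℂ (mainf N a X B) (Metric.ball 0 ρ) := by
  have h1 := h.psi_diff
  unfold mainf
  exact (dLy_diff.differentiableOn.mul ((h1.const_mul (N : ℂ)).cexp)).mul hB

lemma SCtx.main_le (h : SCtx ρ d a X y) (N : ℕ) {B : ℂ → ℂ}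
    (hB1 : ∀ z ∈ Metric.ball (0 : ℂ) ρ, ‖B z‖ ≤ 1) {z : ℂ} (hz : z ∈ Metric.ball (0 : ℂ) ρ)
    {m : ℝ} (hm : (Psi a X z).re ≤ (Psi a X y).re + m) :
    ‖mainf N a X B z‖ ≤ K0 * Real.exp (N * m) * Real.exp (N * (Psi a X y).re) := by
  unfold mainf
  rw [norm_mul, norm_mul, Complex.norm_exp]
  have h1 := dLy_le (im_le_of_ball h.hρ1 hz)
  have h2 := hB1 z hz
  have h3 : ((N : ℂ) * Psi a X z).re = N * (Psi a X z).re := by
    rw [← Complex.ofReal_natCast, Complex.re_ofReal_mul]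
  have hK0 := K0_pos
  rw [h3, mul_assoc K0, ← Real.exp_add]
  calc ‖dLy z‖ * Real.exp (N * (Psi a X z).re) * ‖B z‖
      ≤ K0 * Real.exp (N * m + N * (Psi a X y).re) * 1 := by
        gcongr
        have : (0 : ℝ) ≤ N := by positivity
        nlinarith
    _ = _ := by ring

/-- the flat line -/
lemma SCtx.flat_mem (h : SCtx ρ d a X y) {ξ : ℝ} (hξ : |ξ| ≤ ρ / 2) :
    pt ξ (d / a ^ 2) ∈ Metric.ball (0 : ℂ) ρ := by
  have ha := h.a_pos
  have hk := h.inv_a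
  have hd := h.hd2
  have hd1 := h.hd1
  have hρ := h.hρ
  have hρ1 := h.hρ1
  apply mem_ball_of hρ
  · rw [pt_re]; exact hξ
  · rw [pt_im, abs_neg, abs_of_nonneg (by positivity)]
    have e : d / (a : ℝ) ^ 2 = d * (1 / a) ^ 2 := by ring
    rw [e]
    have h1 : 0 < 1 / (a : ℝ) := by positivity
    nlinarith

lemma SCtx.flat_re (h : SCtx ρ d a X y) {ξ : ℝ} (hξ : |ξ| ≤ ρ / 2) :
    (Psi a X (pt ξ (d / a ^ 2))).re ≤ (Psi a X y).re + 3 / 10 * (1 / (a : ℝ)) ^ 2 := by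
  have ha := h.a_pos
  have h1 := h.re_le (h.flat_mem hξ)
  have e1 : (pt ξ (d / a ^ 2)).re = ξ := pt_re _ _
  have e2 : (pt ξ (d / a ^ 2)).im = -(d * (1 / (a : ℝ)) ^ 2) := by
    rw [pt_im]
    ring
  rw [e1, e2] at h1
  have h2 := flat_ineq (p := Real.pi) (a := a) (k := 1 / a) (x := ξ - y.re)
    (η := -(d * (1 / (a : ℝ)) ^ 2) - y.im) (d := d) Real.pi_gt_d2 Real.pi_lt_d2 (by positivity)
    (by apply one_div_le_one_div_of_le (by norm_num) h.ha) (by field_simp) h.hd1 h.hd2 (by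
      have := h.im_loc
      rw [abs_sub_comm, sub_neg_eq_add]
      exact this)
  linarith

/-- one connector -/
lemma SCtx.conn (h : SCtx ρ d a X y) (N : ℕ) {B : ℂ → ℂ}
    (hB1 : ∀ z ∈ Metric.ball (0 : ℂ) ρ, ‖B z‖ ≤ 1) {P : ℂ → ℂ}
    (hP : ∀ z ∈ Metric.ball (0 : ℂ) ρ, HasDerivAt P (mainf N a X B z) z) {c u v : ℝ}
    (hS : ∀ z : ℂ, z.re = c → u ≤ z.im → z.im ≤ v → z ∈ Metric.ball (0 : ℂ) ρ ∧
      (Psi a X z).re ≤ (Psi a X y).re + -(ρ ^ 2 / 4)) {z w : ℂ} (hz : z.re = c) (hz1 : u ≤ z.im)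
    (hz2 : z.im ≤ v) (hw : w.re = c) (hw1 : u ≤ w.im) (hw2 : w.im ≤ v) :
    ‖P z - P w‖ ≤ K0 * Real.exp (N * -(ρ ^ 2 / 4)) * Real.exp (N * (Psi a X y).re) := by
  set S : Set ℂ := Set.Icc c c ×ℂ Set.Icc u v with hSdef
  have hconv : Convex ℝ S := ((convex_Icc c c).linear_preimage Complex.reLm).inter
    ((convex_Icc u v).linear_preimage Complex.imLm)
  have hmem : ∀ z ∈ S, z.re = c ∧ u ≤ z.im ∧ z.im ≤ v := by
    intro z hz
    rw [hSdef, Complex.mem_reProdIm] at hz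
    exact ⟨le_antisymm hz.1.2 hz.1.1, hz.2.1, hz.2.2⟩
  have hzS : z ∈ S := by
    rw [hSdef, Complex.mem_reProdIm]; exact ⟨⟨hz.ge, hz.le⟩, hz1, hz2⟩
  have hwS : w ∈ S := by
    rw [hSdef, Complex.mem_reProdIm]; exact ⟨⟨hw.ge, hw.le⟩, hw1, hw2⟩
  have h1 := hconv.norm_image_sub_le_of_norm_hasDerivWithin_le
    (fun x hx => (hP x ((hS x (hmem x hx).1 (hmem x hx).2.1 (hmem x hx).2.2).1)).hasDerivWithinAt)
    (fun x hx => h.main_le N hB1 (hS x (hmem x hx).1 (hmem x hx).2.1 (hmem x hx).2.2).1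
      (hS x (hmem x hx).1 (hmem x hx).2.1 (hmem x hx).2.2).2) hwS hzS
  have hzb := (hS z hz hz1 hz2).1
  have hwb := (hS w hw hw1 hw2).1
  rw [Metric.mem_ball, dist_zero_right] at hzb hwb
  have hle : ‖z - w‖ ≤ 1 := by
    have := norm_sub_le z w
    have := h.hρ1
    linarith
  have hK0 := K0_pos
  calc ‖P z - P w‖ ≤ K0 * Real.exp (N * -(ρ ^ 2 / 4)) * Real.exp (N * (Psi a X y).re) * ‖z - w‖ := h1
    _ ≤ K0 * Real.exp (N * -(ρ ^ 2 / 4)) * Real.exp (N * (Psi a X y).re) * 1 := by gcongr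
    _ = _ := by ring

end Pool.Agent.Helper9.TF
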