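import Pool.Agent.Helper85.TF.SMain

/-!
# Deformation of the path
-/

namespace Pool.Agent.Helper9.TF

open Complex Finset MeasureTheory
open Pool.Agent.Helper9.TB

variable {ρ d : ℝ} {a : ℕ} {X : ℂ → ℂ} {y : ℂ}

lemma SCtx.small (h : SCtx ρ d a X y) : 0 ≤ d / (a : ℝ) ^ 2 ∧ d / (a : ℝ) ^ 2 ≤ ρ / 100 := by
  have ha := h.a_pos
  have hk := h.inv_a
  have hd := h.hd2
  have hd1 := h.hd1
  have hρ := h.hρ
  have hρ1 := h.hρ1
  refine ⟨by positivity, ?_⟩
  have e : d / (a : ℝ) ^ 2 = d * (1 / a) ^ 2 := by ring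
  rw [e]
  have h1 : 0 < 1 / (a : ℝ) := by positivity
  nlinarith

lemma SCtx.connR (h : SCtx ρ d a X y) {z : ℂ} (hz : z.re = ρ / 2) (h1 : -(d / (a : ℝ) ^ 2) ≤ z.im)
    (h2 : z.im ≤ y.im + (ρ / 2 - y.re)) : z ∈ Metric.ball (0 : ℂ) ρ ∧
      (Psi a X z).re ≤ (Psi a X y).re + -(ρ ^ 2 / 4) := by
  have hρ := h.hρ
  have hρ1 := h.hρ1
  obtain ⟨hs0, hs1⟩ := h.small
  obtain ⟨r1, r2, r3⟩ := h.re_bounds
  have hk := h.inv_a
  have ha := h.a_pos
  have hb : z ∈ Metric.ball (0 : ℂ) ρ := by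
    apply mem_ball_of hρ
    · rw [hz, abs_of_pos (by linarith)]
    · rw [abs_le]
      have := (abs_le.mp r3).2
      constructor <;> linarith
  refine ⟨hb, ?_⟩
  have h3 := h.re_le hb
  have h4 := conn_ineq (p := Real.pi) (a := a) (k := 1 / a) (x := z.re - y.re)
    (η := z.im - y.im) (d := d) (ρ := ρ) Real.pi_gt_d2 Real.pi_lt_d2 (by positivity) hk hρ1
    (by field_simp) h.hd1 h.hd2 (by rw [hz]; linarith) (by
      have h5 := (abs_le.mp h.im_loc).2
      have e : d / (a : ℝ) ^ 2 = d * (1 / a) ^ 2 := by ring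
      rw [e] at h1
      linarith) (by rw [hz]; linarith)
  linarith

lemma SCtx.connL (h : SCtx ρ d a X y) {z : ℂ} (hz : z.re = -(ρ / 2))
    (h1 : y.im - (ρ / 2 + y.re) ≤ z.im) (h2 : z.im ≤ -(d / (a : ℝ) ^ 2)) :
    z ∈ Metric.ball (0 : ℂ) ρ ∧ (Psi a X z).re ≤ (Psi a X y).re + -(ρ ^ 2 / 4) := by
  have hρ := h.hρ
  have hρ1 := h.hρ1
  obtain ⟨hs0, hs1⟩ := h.small
  obtain ⟨r1, r2, r3⟩ := h.re_bounds
  have hk := h.inv_a
  have ha := h.a_pos
  have hb : z ∈ Metric.ball (0 : ℂ) ρ := by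
    apply mem_ball_of hρ
    · rw [hz, abs_neg, abs_of_pos (by linarith)]
    · rw [abs_le]
      have := (abs_le.mp r3).1
      constructor <;> linarith
  refine ⟨hb, ?_⟩
  have h3 := h.re_le hb
  have h4 := conn_ineq (p := Real.pi) (a := a) (k := 1 / a) (x := -(z.re - y.re))
    (η := -(z.im - y.im)) (d := d) (ρ := ρ) Real.pi_gt_d2 Real.pi_lt_d2 (by positivity) hk hρ1
    (by field_simp) h.hd1 h.hd2 (by rw [hz]; linarith) (by
      have h5 := (abs_le.mp h.im_loc).1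
      have e : d / (a : ℝ) ^ 2 = d * (1 / a) ^ 2 := by ring
      rw [e] at h2
      linarith) (by rw [hz]; linarith)
  have e1 : (-(z.re - y.re)) ^ 2 = (z.re - y.re) ^ 2 := by ring
  have e2 : (-(z.im - y.im)) ^ 2 = (z.im - y.im) ^ 2 := by ring
  have e3 : 2 * Real.pi * a * -(z.re - y.re) * -(z.im - y.im) =
      2 * Real.pi * a * (z.re - y.re) * (z.im - y.im) := by ring
  rw [e1, e2, e3] at h4
  linarith

/-- the tilted path -/
noncomputable def tlt (y : ℂ) (s : ℝ) : ℂ := y + (1 + I) * s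

lemma tlt_re (y : ℂ) (s : ℝ) : (tlt y s).re = y.re + s := by unfold tlt; simp

lemma tlt_im (y : ℂ) (s : ℝ) : (tlt y s).im = y.im + s := by unfold tlt; simp

lemma SCtx.tlt_mem (h : SCtx ρ d a X y) {s : ℝ} (h1 : -(ρ / 2 + y.re) ≤ s) (h2 : s ≤ ρ / 2 - y.re) :
    tlt y s ∈ Metric.ball (0 : ℂ) ρ := by
  obtain ⟨r1, r2, r3⟩ := h.re_bounds
  have hk := h.inv_a
  have hρ := h.hρ
  apply mem_ball_of hρ
  · rw [tlt_re, abs_le]; constructor <;> linarith
  · rw [tlt_im, abs_le]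
    have := (abs_le.mp r3).1
    have := (abs_le.mp r3).2
    constructor <;> linarith

/-- the normalised exponent on the tilted path -/
noncomputable def QT (N a : ℕ) (X : ℂ → ℂ) (y : ℂ) (s : ℝ) : ℂ :=
  N * (Psi a X (tlt y s) - Psi a X y)

lemma tlt_cont (y : ℂ) : Continuous (tlt y) := by unfold tlt; fun_prop

lemma SCtx.tl (h : SCtx ρ d a X y) {N : ℕ} (hN : 1 ≤ N) :
    TL (2 * Real.pi * a * N) (ρ / 2 + y.re) (ρ / 2 - y.re) (QT N a X y) := by
  obtain ⟨r1, r2, r3⟩ := h.re_bounds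
  have hk := h.inv_a
  have hρ := h.hρ
  have ha := h.a_pos
  have ha2 := h.ha
  have hpi := Real.pi_pos
  have hpi3 := Real.pi_gt_three
  have hNR : (1 : ℝ) ≤ N := by exact_mod_cast hN
  have hd := h.hd2
  have hd1 := h.hd1
  refine ⟨by positivity, by linarith, by linarith, ?_, ?_⟩
  · unfold QT
    apply ContinuousOn.mul continuousOn_const
    apply ContinuousOn.sub _ continuousOn_const
    exact h.psi_diff.continuousOn.comp (tlt_cont y).continuousOn fun s hs => h.tlt_mem hs.1 hs.2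
  · intro s hs
    have h1 := h.taylor (h.tlt_mem hs.1 hs.2)
    have e1 : tlt y s - y = (1 + I) * s := by unfold tlt; ring
    have e2 : ((1 + I) * (s : ℂ)) ^ 2 = 2 * I * s ^ 2 := by
      linear_combination (s : ℂ) ^ 2 * Complex.I_sq
    have e3 : ‖((1 + I) * (s : ℂ))‖ ^ 2 = 2 * s ^ 2 := by
      rw [← norm_pow, e2, norm_mul, norm_mul, norm_pow, Complex.norm_I, Complex.norm_real,
        Real.norm_eq_abs, sq_abs, Complex.norm_ofNat]
      ring
    rw [e1, e2, e3] at h1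
    have e4 : QT N a X y s + ((2 * Real.pi * a * N * s ^ 2 : ℝ) : ℂ) =
        N * ((Psi a X (tlt y s) - Psi a X y - (Real.pi * I * a - Real.pi * d) * (2 * I * s ^ 2)) -
          2 * Real.pi * d * I * s ^ 2) := by
      unfold QT
      push_cast
      linear_combination (2 * Real.pi * a * N * (s : ℂ) ^ 2) * Complex.I_sq
    rw [e4, norm_mul, Complex.norm_natCast]
    have n1 : ‖(2 : ℂ) * Real.pi * d * I * s ^ 2‖ = 2 * Real.pi * d * s ^ 2 := by
      rw [norm_mul, norm_mul, norm_mul, norm_mul, norm_pow, Complex.norm_I, Complex.norm_real,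
        Complex.norm_real, Complex.norm_real, Real.norm_eq_abs, Real.norm_eq_abs,
        Real.norm_eq_abs, sq_abs, Complex.norm_ofNat, abs_of_pos hpi, abs_of_pos (by linarith)]
      ring
    have n2 := norm_sub_le (Psi a X (tlt y s) - Psi a X y -
      (Real.pi * I * a - Real.pi * d) * (2 * I * s ^ 2)) ((2 : ℂ) * Real.pi * d * I * s ^ 2)
    rw [n1] at n2
    have n3 : 2 * s ^ 2 + 2 * Real.pi * d * s ^ 2 ≤ 2 * Real.pi * a * s ^ 2 / 4 := by
      have : 2 + 2 * Real.pi * d ≤ 2 * Real.pi * a / 4 := by nlinarith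
      nlinarith [sq_nonneg s]
    calc (N : ℝ) * _ ≤ N * (2 * Real.pi * a * s ^ 2 / 4) := by
          gcongr
          linarith
      _ = _ := by ring

/-- the Gaussian integral -/
noncomputable def JT (N a : ℕ) (ρ : ℝ) (X : ℂ → ℂ) (y : ℂ) : ℂ :=
  ∫ s in (-(ρ / 2 + y.re))..(ρ / 2 - y.re), Complex.exp (QT N a X y s)

lemma SCtx.flat_prim (h : SCtx ρ d a X y) {f P : ℂ → ℂ}
    (hf : DifferentiableOn ℂ f (Metric.ball 0 ρ))
    (hP : ∀ z ∈ Metric.ball (0 : ℂ) ρ, HasDerivAt P (f z) z) :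
    ∫ ξ in (-(ρ / 2))..(ρ / 2), f (pt ξ (d / a ^ 2)) =
      P (pt (ρ / 2) (d / a ^ 2)) - P (pt (-(ρ / 2)) (d / a ^ 2)) := by
  have hρ := h.hρ
  have hle : -(ρ / 2) ≤ ρ / 2 := by linarith
  have hmem : ∀ ξ ∈ Set.uIcc (-(ρ / 2)) (ρ / 2), pt ξ (d / a ^ 2) ∈ Metric.ball (0 : ℂ) ρ := by
    intro ξ hξ
    rw [Set.uIcc_of_le hle] at hξ
    exact h.flat_mem (abs_le.mpr hξ)
  apply intervalIntegral.integral_eq_sub_of_hasDerivAt (f := fun ξ : ℝ => P (pt ξ (d / a ^ 2)))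
  · intro ξ hξ
    have hpt : HasDerivAt (fun ξ : ℝ => pt ξ (d / a ^ 2)) 1 ξ := by
      unfold pt
      have h1 : HasDerivAt (fun ξ : ℝ => (ξ : ℂ)) 1 ξ := Complex.ofRealCLM.hasDerivAt
      simpa using h1.add_const (((-(d / a ^ 2) : ℝ) : ℂ) * Complex.I)
    have h2 := HasDerivAt.scomp ξ (hP _ (hmem ξ hξ)) hpt
    rw [one_smul] at h2
    exact h2
  · apply ContinuousOn.intervalIntegrable
    exact hf.continuousOn.comp (pt_cont _).continuousOn hmem

lemma SCtx.tlt_prim (h : SCtx ρ d a X y) {f P : ℂ → ℂ}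
    (hf : DifferentiableOn ℂ f (Metric.ball 0 ρ))
    (hP : ∀ z ∈ Metric.ball (0 : ℂ) ρ, HasDerivAt P (f z) z) :
    (1 + I) * ∫ s in (-(ρ / 2 + y.re))..(ρ / 2 - y.re), f (tlt y s) =
      P (tlt y (ρ / 2 - y.re)) - P (tlt y (-(ρ / 2 + y.re))) := by
  have hρ := h.hρ
  have hle : -(ρ / 2 + y.re) ≤ ρ / 2 - y.re := by linarith
  have hmem : ∀ s ∈ Set.uIcc (-(ρ / 2 + y.re)) (ρ / 2 - y.re),
      tlt y s ∈ Metric.ball (0 : ℂ) ρ := by
    intro s hs
    rw [Set.uIcc_of_le hle] at hs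
    exact h.tlt_mem hs.1 hs.2
  rw [← intervalIntegral.integral_const_mul]
  apply intervalIntegral.integral_eq_sub_of_hasDerivAt (f := fun s : ℝ => P (tlt y s))
  · intro s hs
    have hpt : HasDerivAt (fun s : ℝ => tlt y s) (1 + I) s := by
      unfold tlt
      have h1 : HasDerivAt (fun ξ : ℝ => (ξ : ℂ)) 1 s := Complex.ofRealCLM.hasDerivAt
      simpa using (h1.const_mul (1 + I)).const_add y
    have h2 := HasDerivAt.scomp s (hP _ (hmem s hs)) hpt
    exact h2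
  · apply ContinuousOn.intervalIntegrable
    exact continuousOn_const.mul (hf.continuousOn.comp (tlt_cont y).continuousOn hmem)

/-- the integral of the main part -/
lemma SCtx.main_int (h : SCtx ρ d a X y) {N : ℕ} (hN : 1 ≤ N) {B : ℂ → ℂ}
    (hB : DifferentiableOn ℂ B (Metric.ball 0 ρ))
    (hB1 : ∀ z ∈ Metric.ball (0 : ℂ) ρ, ‖B z‖ ≤ 1) :
    ‖(∫ ξ in (-(ρ / 2))..(ρ / 2), mainf N a X B (pt ξ (d / a ^ 2))) -
      (1 + I) * Complex.exp (N * Psi a X y) * (dLy y * B y) * JT N a ρ X y‖ ≤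
      (2 * K0 * Real.exp (N * -(ρ ^ 2 / 4)) + 16 * KA ρ / (2 * Real.pi * a * N)) *
        Real.exp (N * (Psi a X y).re) := by
  obtain ⟨r1, r2, r3⟩ := h.re_bounds
  have hk := h.inv_a
  have hρ := h.hρ
  have ha := h.a_pos
  have hpi := Real.pi_pos
  obtain ⟨hs0, hs1⟩ := h.small
  have hNR : (1 : ℝ) ≤ N := by exact_mod_cast hN
  have hT := h.tl hN
  have hf := h.main_diff N hB
  obtain ⟨P, hP⟩ := hf.isExactOn_ball
  have hKA : 0 < KA ρ := by
    unfold KA
    have := K0_pos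
    have := K1_pos
    positivity
  rw [h.flat_prim hf hP]
  -- connectors
  have c1 : ‖P (pt (ρ / 2) (d / a ^ 2)) - P (tlt y (ρ / 2 - y.re))‖ ≤
      K0 * Real.exp (N * -(ρ ^ 2 / 4)) * Real.exp (N * (Psi a X y).re) := by
    have r4 := abs_le.mp r3
    apply h.conn N hB1 hP (c := ρ / 2) (u := -(d / (a : ℝ) ^ 2)) (v := y.im + (ρ / 2 - y.re))
      (fun z hz h1 h2 => h.connR hz h1 h2)
    · rw [pt_re]
    · rw [pt_im]
    · rw [pt_im]; linarith
    · rw [tlt_re]; ring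
    · rw [tlt_im]; linarith
    · rw [tlt_im]
  have c2 : ‖P (pt (-(ρ / 2)) (d / a ^ 2)) - P (tlt y (-(ρ / 2 + y.re)))‖ ≤
      K0 * Real.exp (N * -(ρ ^ 2 / 4)) * Real.exp (N * (Psi a X y).re) := by
    have r4 := abs_le.mp r3
    apply h.conn N hB1 hP (c := -(ρ / 2)) (u := y.im - (ρ / 2 + y.re)) (v := -(d / (a : ℝ) ^ 2))
      (fun z hz h1 h2 => h.connL hz h1 h2)
    · rw [pt_re]
    · rw [pt_im]; linarith
    · rw [pt_im]
    · rw [tlt_re]; ring
    · rw [tlt_im]; linarith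
    · rw [tlt_im]; linarith
  have ht := h.tlt_prim hf hP
  -- the tilted integral
  have hle : -(ρ / 2 + y.re) ≤ ρ / 2 - y.re := by linarith
  have e1 : ∫ s in (-(ρ / 2 + y.re))..(ρ / 2 - y.re), mainf N a X B (tlt y s) =
      Complex.exp (N * Psi a X y) * ((dLy y * B y) * JT N a ρ X y +
        ∫ s in (-(ρ / 2 + y.re))..(ρ / 2 - y.re), Complex.exp (QT N a X y s) *
          (dLy (tlt y s) * B (tlt y s) - dLy y * B y)) := by
    unfold JT
    have i1 : IntervalIntegrable (fun s => (dLy y * B y) * Complex.exp (QT N a X y s)) volume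
        (-(ρ / 2 + y.re)) (ρ / 2 - y.re) := by
      have := hT.intervalIntegrable (g := fun _ => dLy y * B y) continuousOn_const
      simpa only [mul_comm] using this
    have hg : ContinuousOn (fun s : ℝ => dLy (tlt y s) * B (tlt y s) - dLy y * B y)
        (Set.Icc (-(ρ / 2 + y.re)) (ρ / 2 - y.re)) := by
      apply ContinuousOn.sub _ continuousOn_const
      exact ((dLy_diff.differentiableOn.mul hB).continuousOn).comp (tlt_cont y).continuousOn
        fun s hs => h.tlt_mem hs.1 hs.2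
    have i2 := hT.intervalIntegrable hg
    rw [← intervalIntegral.integral_const_mul, ← intervalIntegral.integral_add i1 i2,
      ← intervalIntegral.integral_const_mul]
    apply intervalIntegral.integral_congr
    intro s _
    simp only []
    unfold mainf
    have e2 : (N : ℂ) * Psi a X (tlt y s) = N * Psi a X y + QT N a X y s := by unfold QT; ring
    rw [e2, Complex.exp_add]
    ring
  have n1 : ‖∫ s in (-(ρ / 2 + y.re))..(ρ / 2 - y.re), Complex.exp (QT N a X y s) *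
      (dLy (tlt y s) * B (tlt y s) - dLy y * B y)‖ ≤ 4 * (2 * KA ρ) / (2 * Real.pi * a * N) := by
    apply hT.lin (by positivity)
    intro s hs
    refine (h.amp hB hB1 (h.tlt_mem hs.1 hs.2)).trans ?_
    have e3 : tlt y s - y = (1 + I) * s := by unfold tlt; ring
    have n2 : ‖(1 : ℂ) + I‖ ≤ 2 := by
      refine (norm_add_le _ _).trans ?_
      rw [norm_one, Complex.norm_I]; norm_num
    rw [e3, norm_mul, Complex.norm_real, Real.norm_eq_abs]
    calc KA ρ * (‖(1 : ℂ) + I‖ * |s|) ≤ KA ρ * (2 * |s|) := by gcongr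
      _ = _ := by ring
  set Z := ∫ s in (-(ρ / 2 + y.re))..(ρ / 2 - y.re), Complex.exp (QT N a X y s) *
      (dLy (tlt y s) * B (tlt y s) - dLy y * B y) with hZ
  rw [e1] at ht
  have e4 : P (pt (ρ / 2) (d / a ^ 2)) - P (pt (-(ρ / 2)) (d / a ^ 2)) -
      (1 + I) * Complex.exp (N * Psi a X y) * (dLy y * B y) * JT N a ρ X y =
      (P (pt (ρ / 2) (d / a ^ 2)) - P (tlt y (ρ / 2 - y.re))) -
      (P (pt (-(ρ / 2)) (d / a ^ 2)) - P (tlt y (-(ρ / 2 + y.re)))) +
      (1 + I) * Complex.exp (N * Psi a X y) * Z := by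
    linear_combination (-1 : ℂ) * ht
  rw [e4]
  have n3 : ‖(1 + I) * Complex.exp (N * Psi a X y) * Z‖ ≤
      16 * KA ρ / (2 * Real.pi * a * N) * Real.exp (N * (Psi a X y).re) := by
    rw [norm_mul, norm_mul, Complex.norm_exp]
    have h3 : ((N : ℂ) * Psi a X y).re = N * (Psi a X y).re := by
      rw [← Complex.ofReal_natCast, Complex.re_ofReal_mul]
    have n2 : ‖(1 : ℂ) + I‖ ≤ 2 := by
      refine (norm_add_le _ _).trans ?_
      rw [norm_one, Complex.norm_I]; norm_num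
    rw [h3]
    calc ‖(1 : ℂ) + I‖ * Real.exp (N * (Psi a X y).re) * ‖Z‖
        ≤ 2 * Real.exp (N * (Psi a X y).re) * (4 * (2 * KA ρ) / (2 * Real.pi * a * N)) := by
          gcongr
      _ = _ := by ring
  refine (norm_add_le _ _).trans ((add_le_add (norm_sub_le _ _) n3).trans ?_)
  linarith

end Pool.Agent.Helper9.TF
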